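import Pool.Agent.H97.HV.Targets

/-!
# Row AMN: the filter of the final segments of a homogeneous set is amenable to HOD(V_γ)
-/

set_option autoImplicit false

namespace Pool.Agent.H52.HV

open _root_.HD HD.PRK HD.HV
open Ordinal Cardinal Order Set
open scoped ZFSet

universe u

/-- definability from a pair -/
theorem odp_pair {x z : ZFSet.{u}} (h : NF.ODp x z) (w : ZFSet.{u}) :
    NF.ODp (ZFSet.pair x w) z := by
  obtain ⟨Q, hQ, h⟩ := Pool.Agent.H45.NF.ODp.def h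
  refine Pool.Agent.H45.NF.ODp.of_dz (Q := fun v => ∃ a b, v 1 = ZFSet.pair a b ∧
    Q (cons (v 0) fun _ => a)) ?_ fun y => ?_
  · refine DZ.ex (R := fun a v => ∃ b, v 1 = ZFSet.pair a b ∧ Q (cons (v 0) fun _ => a))
      (DZ.ex (R := fun b v => v 2 = ZFSet.pair (v 0) b ∧ Q (cons (v 1) fun _ => v 0)) ?_)
    refine (loc_pair 3 1 0).dz.and ?_
    refine (hQ.ren fun n => if n = 0 then 2 else 1).congr fun v => ?_
    have : (cons (v 2) fun _ => v 1) = fun n => v (if n = 0 then 2 else 1) := by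
      funext n
      rcases n with _ | n <;> simp
    rw [← this]
  · constructor
    · rintro ⟨a, b, he, hq⟩
      have he' : ZFSet.pair x w = ZFSet.pair a b := he
      obtain ⟨rfl, rfl⟩ := ZFSet.pair_injective he'
      exact (h y).1 hq
    · intro hy
      exact ⟨x, w, rfl, (h y).2 hy⟩

theorem pos_of_lim {γ : Ordinal.{u}} (h : IsSuccLimit γ) : 0 < γ := by
  rcases eq_or_ne γ 0 with rfl | h1
  · exact absurd isMin_bot h.not_isMin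
  · exact pos_iff_ne_zero.2 h1

theorem pv_of (h0 : T_PVA.{u}) {γ : Ordinal.{u}} (hγ : IsSuccLimit γ) {x z : ZFSet.{u}}
    (hx : PV γ x) (h : NF.ODp x z) : PV γ z :=
  h0.2.2.1 γ hγ x (0 : Ordinal.{u}).toZFSet z hx (h0.1 γ _ (pos_of_lim hγ) (OD.ordinal 0))
    (odp_pair h _)

/-- the relation coded by a function of sets -/
theorem odp_rs (f : ZFSet.{u}) (β : Ordinal.{u}) :
    NF.ODp f (rs β β fun n a => ∃ Y, ZFSet.pair n.toZFSet Y ∈ f ∧ a.toZFSet ∈ Y) := by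
  refine Pool.Agent.H45.NF.ODp.of_dz (Q := fun v => ∀ w, w ∈ v 0 ↔ ∃ n ∈ β.toZFSet,
    ∃ a ∈ β.toZFSet, w = ZFSet.pair n a ∧ ∃ Y, ZFSet.pair n Y ∈ v 1 ∧ a ∈ Y) ?_ fun y => ?_
  · refine DZ.od (R := fun b v => ∀ w, w ∈ v 0 ↔ ∃ n ∈ b, ∃ a ∈ b, w = ZFSet.pair n a ∧
      ∃ Y, ZFSet.pair n Y ∈ v 1 ∧ a ∈ Y) (OD.ordinal β) ?_
    refine DZ.all (R := fun w v => w ∈ v 1 ↔ ∃ n ∈ v 0, ∃ a ∈ v 0, w = ZFSet.pair n a ∧
      ∃ Y, ZFSet.pair n Y ∈ v 2 ∧ a ∈ Y) ?_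
    refine (DZ.mem 0 2).iff ?_
    refine DZ.exMem (R := fun n v => ∃ a ∈ v 1, v 0 = ZFSet.pair n a ∧
      ∃ Y, ZFSet.pair n Y ∈ v 3 ∧ a ∈ Y) 1 ?_
    refine DZ.exMem (R := fun a v => v 1 = ZFSet.pair (v 0) a ∧
      ∃ Y, ZFSet.pair (v 0) Y ∈ v 4 ∧ a ∈ Y) 2 ?_
    refine (loc_pair 2 1 0).dz.and ?_
    refine DZ.ex (R := fun Y v => ZFSet.pair (v 1) Y ∈ v 5 ∧ v 0 ∈ Y) ?_
    exact (loc_pmem 2 0 6).dz.and (DZ.mem 1 0)
  · have key : ∀ w, w ∈ rs β β (fun n a => ∃ Y, ZFSet.pair n.toZFSet Y ∈ f ∧ a.toZFSet ∈ Y) ↔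
        ∃ n ∈ β.toZFSet, ∃ a ∈ β.toZFSet, w = ZFSet.pair n a ∧
          ∃ Y, ZFSet.pair n Y ∈ f ∧ a ∈ Y := by
      intro w
      rw [mem_rs]
      constructor
      · rintro ⟨a, ha, b, hb, h, rfl⟩
        exact ⟨_, toZFSet_mem_toZFSet_iff.2 ha, _, toZFSet_mem_toZFSet_iff.2 hb, rfl, h⟩
      · rintro ⟨x, hx, y, hy, rfl, h⟩
        obtain ⟨a, ha, rfl⟩ := mem_toZFSet_iff.1 hx
        obtain ⟨b, hb, rfl⟩ := mem_toZFSet_iff.1 hy
        exact ⟨a, ha, b, hb, h, rfl⟩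
    show (∀ w, w ∈ y ↔ ∃ n ∈ β.toZFSet, ∃ a ∈ β.toZFSet, w = ZFSet.pair n a ∧
      ∃ Y, ZFSet.pair n Y ∈ f ∧ a ∈ Y) ↔ _
    constructor
    · intro he
      ext w
      rw [he, key]
    · intro he w
      rw [he, key]

/-- the set `s` -/
theorem odp_s (g : ZFSet.{u}) {E0 : ZFSet.{u}} (hE : OD E0) (μ κ β : Ordinal.{u}) :
    NF.ODp g (os β {n | ¬ Pos μ κ {b | b.toZFSet ∈ E0 ∧
      ZFSet.pair n.toZFSet b.toZFSet ∉ g}}) := by
  refine Pool.Agent.H45.NF.ODp.of_dz (Q := fun v => ∀ w, w ∈ v 0 ↔ w ∈ β.toZFSet ∧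
    ¬ Pos μ κ {b | b.toZFSet ∈ E0 ∧ ZFSet.pair w b.toZFSet ∉ v 1}) ?_ fun y => ?_
  · refine DZ.od (R := fun b v => ∀ w, w ∈ v 0 ↔ w ∈ b ∧
      ¬ Pos μ κ {b | b.toZFSet ∈ E0 ∧ ZFSet.pair w b.toZFSet ∉ v 1}) (OD.ordinal β) ?_
    refine DZ.all (R := fun w v => w ∈ v 1 ↔ w ∈ v 0 ∧
      ¬ Pos μ κ {b | b.toZFSet ∈ E0 ∧ ZFSet.pair w b.toZFSet ∉ v 2}) ?_
    refine (DZ.mem 0 2).iff ((DZ.mem 0 1).and ?_)
    refine (HD.NF.dz_posc (P := fun z v => z ∈ E0 ∧ ZFSet.pair (v 0) z ∉ v 3) μ κ ?_).not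
    exact (DZ.od (R := fun x v => v 0 ∈ x) hE (DZ.mem 1 0)).and (loc_pmem 1 0 4).dz.not
  · have key : ∀ w, w ∈ os β {n | ¬ Pos μ κ {b | b.toZFSet ∈ E0 ∧
        ZFSet.pair n.toZFSet b.toZFSet ∉ g}} ↔ w ∈ β.toZFSet ∧
        ¬ Pos μ κ {b | b.toZFSet ∈ E0 ∧ ZFSet.pair w b.toZFSet ∉ g} := by
      intro w
      rw [mem_os]
      constructor
      · rintro ⟨a, ha, h, rfl⟩
        exact ⟨toZFSet_mem_toZFSet_iff.2 ha, h⟩
      · rintro ⟨hw, h⟩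
        obtain ⟨a, ha, rfl⟩ := mem_toZFSet_iff.1 hw
        exact ⟨a, ha, h, rfl⟩
    show (∀ w, w ∈ y ↔ w ∈ β.toZFSet ∧
      ¬ Pos μ κ {b | b.toZFSet ∈ E0 ∧ ZFSet.pair w b.toZFSet ∉ g}) ↔ _
    constructor
    · intro he
      ext w
      rw [he, key]
    · intro he w
      rw [he, key]

theorem nv_of_hod (h0 : T_PVA.{u}) {γ : Ordinal.{u}} (hγ : 0 < γ) {x : ZFSet.{u}}
    (hx : HOD x) : NV γ x := by
  induction x using ZFSet.inductionOn with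
  | _ x ih =>
    refine ZFSet.hereditarily_iff.2 ⟨h0.1 γ x hγ hx.od, fun y hy => ih y hy ((hod_iff.1 hx).2 y hy)⟩

theorem pair_V {β a b : Ordinal.{u}} (hβ : IsSuccLimit β) (ha : a < β) (hb : b < β) :
    ZFSet.pair a.toZFSet b.toZFSet ∈ V_ β := by
  rw [ZFSet.mem_vonNeumann]
  have h1 : (ZFSet.pair a.toZFSet b.toZFSet).rank ≤ succ (succ (max a b)) := by
    rw [ZFSet.rank_le_iff]
    intro y hy
    rw [Order.lt_succ_iff, ZFSet.rank_le_iff]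
    intro z hz
    rw [Order.lt_succ_iff]
    unfold ZFSet.pair at hy
    rcases ZFSet.mem_pair.1 hy with rfl | rfl
    · rw [ZFSet.mem_singleton.1 hz, rank_toZFSet]
      exact le_max_left _ _
    · rcases ZFSet.mem_pair.1 hz with rfl | rfl
      · rw [rank_toZFSet]; exact le_max_left _ _
      · rw [rank_toZFSet]; exact le_max_right _ _
  exact h1.trans_lt (hβ.succ_lt (hβ.succ_lt (max_lt ha hb)))

theorem pf_AMN (h0 : T_PVA.{u}) : T_AMN.{u} := by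
  intro en γ M K c C e h A hA β hβ hβ0 hub f y hf hfun
  have hlt : ∀ x < β, x < K.ord := fun x hx => lt_of_lt_of_le hx hβ
  have hβC : β < K.ord → β ∈ C := by
    intro hlt'
    refine h.ve.clb.cls β hlt' hβ0 fun η hη => ?_
    obtain ⟨a, ha, h1, h2⟩ := hub η hη
    exact ⟨a, h2, h1, (hA a ha).1⟩
  have hβl : IsSuccLimit β := by
    rcases lt_or_eq_of_le hβ with hlt' | heq
    · exact h.ve.lim β (hβC hlt') hlt'
    · rw [heq]; exact Cardinal.isSuccLimit_ord h.kunc.le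
  have hml : IsSuccLimit (min γ β) := by
    rcases le_total γ β with h1 | h1
    · rw [min_eq_left h1]; exact h.fit.lim
    · rw [min_eq_right h1]; exact hβl
  -- the coded relation
  set R : Ordinal.{u} → Ordinal.{u} → Prop := fun n a =>
    ∃ Y, ZFSet.pair n.toZFSet Y ∈ f ∧ a.toZFSet ∈ Y with hR
  have hfp : PV (min γ β) f := (ZFSet.hereditarily_iff.1 hf).1
  have hW : WV γ β (rs β β R) := by
    refine ⟨ZFSet.hereditarily_iff.2 ⟨pv_of h0 hml hfp (odp_rs f β), fun w hw => ?_⟩,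
      fun w hw => ?_⟩
    · obtain ⟨a, -, b, -, -, rfl⟩ := mem_rs.1 hw
      exact nv_of_hod h0 (pos_of_lim hml) ((HOD.ordinal a).pair (HOD.ordinal b))
    · obtain ⟨a, ha, b, hb, -, rfl⟩ := mem_rs.1 hw
      exact pair_V hβl ha hb
  have hz : ∃ z < β, PV (min γ β) (e z) ∧ ∀ n < β, ∀ a < β,
      (ZFSet.pair n.toZFSet a.toZFSet ∈ e z ↔ R n a) := by
    rcases lt_or_eq_of_le hβ with hlt' | heq
    · obtain ⟨z, hz, he⟩ := (h.ve.tr β (hβC hlt') hlt' _).1 hW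
      refine ⟨z, hz, h.ve.par β (hβC hlt') hlt' z hz, fun n hn a ha => ?_⟩
      have h1 : ZFSet.pair n.toZFSet a.toZFSet ∈ rs β β R ↔ R n a := by
        rw [pair_mem_rs]
        exact ⟨fun h => h.2.2, fun h => ⟨hn, ha, h⟩⟩
      rw [← h1, he, ZFSet.mem_inter]
      exact ⟨fun h => ⟨h, pair_V hβl hn ha⟩, fun h => h.1⟩
    · have hW' : WV γ K.ord (rs β β R) := heq ▸ hW
      obtain ⟨z, hz, he⟩ := h.ve.onto _ hW'
      refine ⟨z, heq ▸ hz, ?_, fun n hn a ha => ?_⟩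
      · have := (ZFSet.hereditarily_iff.1 (h.ve.he z).1).1
        rw [heq]
        exact this
      · rw [← he, pair_mem_rs]
        exact ⟨fun h => h.2.2, fun h => ⟨hn, ha, h⟩⟩
  obtain ⟨z, hz, hpz, hez⟩ := hz
  have hEn : OD (en c) := (h.hen.od _).2 ⟨c, rfl⟩
  have hs := pv_of h0 hml hpz (odp_s (e z) hEn M.ord K.ord β)
  refine ⟨os β {n | ¬ Pos M.ord K.ord {b | b.toZFSet ∈ en c ∧
      ZFSet.pair n.toZFSet b.toZFSet ∉ e z}},
    h0.2.2.2.2 (min γ β) β _ (pos_of_lim hml) (fun y hy => ?_) hs, fun n => ?_⟩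
  · obtain ⟨a, ha, -, rfl⟩ := mem_os.1 hy
    exact toZFSet_mem_toZFSet_iff.2 ha
  rw [ord_mem_os]
  have hdec : ∀ n < β, ∀ a ∈ A, z < a → n < a → a < β →
      (ZFSet.pair n.toZFSet a.toZFSet ∈ e z ↔
      ¬ Pos M.ord K.ord {b | b.toZFSet ∈ en c ∧ ZFSet.pair n.toZFSet b.toZFSet ∉ e z}) := by
    intro n hn a ha h1 h2 h3
    exact h.dec z (hlt z hz) n (hlt n hn) a (hA a ha).1 (hA a ha).2.1 (hA a ha).2.2 h1 h2
      (hlt a h3)
  constructor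
  · rintro ⟨hn, hs⟩
    refine ⟨hn, ?_⟩
    obtain ⟨Y, hY, hYu⟩ := hfun.2 n.toZFSet (toZFSet_mem_toZFSet_iff.2 hn)
    refine ⟨Y, hY, ?_⟩
    obtain ⟨a0, _, h1, h2⟩ := hub (max z n) (max_lt hz hn)
    refine ⟨a0, h2, fun a ha hη hlt' => ?_⟩
    have hza : z < a := lt_of_lt_of_le (lt_of_le_of_lt (le_max_left _ _) h1) hη
    have hna : n < a := lt_of_lt_of_le (lt_of_le_of_lt (le_max_right _ _) h1) hη
    have h3 := (hdec n hn a ha hza hna hlt').2 hs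
    obtain ⟨Y', hY', ha'⟩ := (hez n hn a hlt').1 h3
    have := hYu Y' hY'
    rwa [this] at ha'
  · rintro ⟨hn, Y, hY, η, hη, hYA⟩
    refine ⟨hn, ?_⟩
    obtain ⟨a, ha, h1, h2⟩ := hub (max η (max z n)) (max_lt hη (max_lt hz hn))
    have hη' : η < a := lt_of_le_of_lt (le_max_left _ _) h1
    have hza : z < a := lt_of_le_of_lt ((le_max_left _ _).trans (le_max_right _ _)) h1
    have hna : n < a := lt_of_le_of_lt ((le_max_right _ _).trans (le_max_right _ _)) h1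
    exact (hdec n hn a ha hza hna h2).1 ((hez n hn a h2).2 ⟨Y, hY, hYA a ha hη'.le h2⟩)

end Pool.Agent.H52.HV
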