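import Pool.Agent.H97.HV.Targets2
import Pool.Agent.H14.PRK.LPX

/-!
# Row LOV: splitting of families of sequences is locally definable
-/

set_option autoImplicit false

namespace Pool.Agent.H52.HV

open _root_.HD HD.PRK HD.HV
open Ordinal Cardinal Order Set
open scoped ZFSet

universe u

theorem posX_congr' {μ ρ : Ordinal.{u}} {P Q : ZFSet.{u} → Prop} (h : ∀ x, P x ↔ Q x) :
    PosX μ ρ P ↔ PosX μ ρ Q := by
  have : P = Q := funext fun x => propext (h x)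
  rw [this]

theorem agV_succ {F x y : ZFSet.{u}} {i : Ordinal.{u}} :
    AgV F x y (succ i) ↔ AgV F x y i ∧ Eqv F x y i := by
  constructor
  · intro h
    exact ⟨fun k hk => h k (hk.trans (lt_succ i)), h i (lt_succ i)⟩
  · rintro ⟨h1, h2⟩ k hk
    rcases lt_or_eq_of_le (Order.lt_succ_iff.1 hk) with h | rfl
    · exact h1 k h
    · exact h2

theorem LOV_of (hL : T_LPX.{u}) (h : T_LAV.{u}) : T_LOV.{u} := by
  obtain ⟨hE, hA, -⟩ := h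
  -- the class of the element `v j`
  have hP : ∀ j : ℕ, j < 2 → Loc.{u} fun v => (v 2).IsOrdinal ∧ (v 3).IsOrdinal ∧
      PosX (v 2).rank (v 3).rank (fun z => ((v 5).IsOrdinal ∧ AgV (v 4) z (v j) (v 5).rank) ∧
        ((v 5).IsOrdinal ∧ Eqv (v 4) z (v j) (v 5).rank)) := by
    intro j hj
    refine hL (fun z v => ((v 5).IsOrdinal ∧ AgV (v 4) z (v j) (v 5).rank) ∧
        ((v 5).IsOrdinal ∧ Eqv (v 4) z (v j) (v 5).rank)) ?_ 2 3
    refine Loc.and ?_ ?_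
    · exact hA.ren fun n => if n = 0 then 5 else if n = 1 then 0 else if n = 2 then j + 1 else 6
    · exact hE.ren fun n => if n = 0 then 5 else if n = 1 then 0 else if n = 2 then j + 1 else 6
  have hA' : Loc.{u} fun v => (v 5).IsOrdinal ∧ AgV (v 4) (v 1) (v 0) (v 5).rank :=
    hA.ren fun n => if n = 0 then 4 else if n = 1 then 1 else if n = 2 then 0 else 5
  have hE' : Loc.{u} fun v => (v 5).IsOrdinal ∧ Eqv (v 4) (v 1) (v 0) (v 5).rank :=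
    hE.ren fun n => if n = 0 then 4 else if n = 1 then 1 else if n = 2 then 0 else 5
  have h1 : Loc.{u} fun v => ∃ x ⊆ v 1, ∃ y ⊆ v 1,
      (((v 0).IsOrdinal ∧ (v 1).IsOrdinal ∧ PosX (v 0).rank (v 1).rank
        (fun z => ((v 3).IsOrdinal ∧ AgV (v 2) z x (v 3).rank) ∧
          ((v 3).IsOrdinal ∧ Eqv (v 2) z x (v 3).rank))) ∧
      ((v 0).IsOrdinal ∧ (v 1).IsOrdinal ∧ PosX (v 0).rank (v 1).rank
        (fun z => ((v 3).IsOrdinal ∧ AgV (v 2) z y (v 3).rank) ∧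
          ((v 3).IsOrdinal ∧ Eqv (v 2) z y (v 3).rank)))) ∧
      ((v 3).IsOrdinal ∧ AgV (v 2) x y (v 3).rank) ∧
      ¬ ((v 3).IsOrdinal ∧ Eqv (v 2) x y (v 3).rank) := by
    refine Loc.exSub (R := fun x v => ∃ y ⊆ v 1,
      (((v 0).IsOrdinal ∧ (v 1).IsOrdinal ∧ PosX (v 0).rank (v 1).rank
        (fun z => ((v 3).IsOrdinal ∧ AgV (v 2) z x (v 3).rank) ∧
          ((v 3).IsOrdinal ∧ Eqv (v 2) z x (v 3).rank))) ∧
      ((v 0).IsOrdinal ∧ (v 1).IsOrdinal ∧ PosX (v 0).rank (v 1).rank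
        (fun z => ((v 3).IsOrdinal ∧ AgV (v 2) z y (v 3).rank) ∧
          ((v 3).IsOrdinal ∧ Eqv (v 2) z y (v 3).rank)))) ∧
      ((v 3).IsOrdinal ∧ AgV (v 2) x y (v 3).rank) ∧
      ¬ ((v 3).IsOrdinal ∧ Eqv (v 2) x y (v 3).rank)) 1 ?_
    refine Loc.exSub (R := fun y v =>
      (((v 1).IsOrdinal ∧ (v 2).IsOrdinal ∧ PosX (v 1).rank (v 2).rank
        (fun z => ((v 4).IsOrdinal ∧ AgV (v 3) z (v 0) (v 4).rank) ∧
          ((v 4).IsOrdinal ∧ Eqv (v 3) z (v 0) (v 4).rank))) ∧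
      ((v 1).IsOrdinal ∧ (v 2).IsOrdinal ∧ PosX (v 1).rank (v 2).rank
        (fun z => ((v 4).IsOrdinal ∧ AgV (v 3) z y (v 4).rank) ∧
          ((v 4).IsOrdinal ∧ Eqv (v 3) z y (v 4).rank)))) ∧
      ((v 4).IsOrdinal ∧ AgV (v 3) (v 0) y (v 4).rank) ∧
      ¬ ((v 4).IsOrdinal ∧ Eqv (v 3) (v 0) y (v 4).rank)) 2 ?_
    exact ((hP 1 (by norm_num)).and (hP 0 (by norm_num))).and (hA'.and hE'.not)
  refine Loc.congr (((h1.and (loc_ord 0)).and (loc_ord 1)).and (loc_ord 3)) fun v => ?_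
  have key : (v 3).IsOrdinal → ∀ x, (PcV (v 0).rank (v 1).rank (v 2) x (succ (v 3).rank) ↔
      PosX (v 0).rank (v 1).rank
        (fun z => ((v 3).IsOrdinal ∧ AgV (v 2) z x (v 3).rank) ∧
          ((v 3).IsOrdinal ∧ Eqv (v 2) z x (v 3).rank))) := by
    intro a3 x
    refine posX_congr' fun z => ?_
    rw [agV_succ]
    exact ⟨fun h => ⟨⟨a3, h.1⟩, a3, h.2⟩, fun h => ⟨h.1.2, h.2.2⟩⟩
  constructor
  · rintro ⟨a0, a1, a3, x, hx, y, hy, h1, h2, h3, h4⟩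
    obtain ⟨ρ, hρ⟩ := ord_of a1
    have hr : (v 1).rank.toZFSet = v 1 := by rw [hρ, rank_toZFSet]
    rw [hr] at hx hy
    exact ⟨⟨⟨⟨x, hx, y, hy, ⟨⟨a0, a1, (key a3 x).1 h1⟩, a0, a1, (key a3 y).1 h2⟩, ⟨a3, h3⟩,
      fun h => h4 h.2⟩, a0⟩, a1⟩, a3⟩
  · rintro ⟨⟨⟨⟨x, hx, y, hy, ⟨⟨-, -, h1⟩, -, -, h2⟩, h3, h4⟩, a0⟩, a1⟩, a3⟩
    obtain ⟨ρ, hρ⟩ := ord_of a1
    have hr : (v 1).rank.toZFSet = v 1 := by rw [hρ, rank_toZFSet]
    refine ⟨a0, a1, a3, x, ?_, y, ?_, (key a3 x).2 h1, (key a3 y).2 h2, h3.2,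
      fun h => h4 ⟨a3, h⟩⟩
    · rw [hr]; exact hx
    · rw [hr]; exact hy

theorem pf_LOV (h : T_LAV.{u}) : T_LOV.{u} := LOV_of Pool.Agent.H14.PRK.pf_LPX h

end Pool.Agent.H52.HV
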